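import Pool.Agent.Lib.H18GB.Transfer
import Pool.Agent.Lib.H18GB2.Beta
import Pool.Agent.Lib.H18GB2.Sharp

/-!
# Almost all vertices of the Goldbach graphs are pairwise at distance at most five

For both families of graphs of problem `MP_443e5f_co` and every `ε > 0`, if `n` is large then there
is a set of at least `(1 - ε) n` vertices any two of which are at distance at most `5`; and `5`
cannot be replaced by `4`, since every set of at least `(3/5 + ε) n` vertices contains two vertices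
at distance at least `5`.
-/

namespace Pool.Agent.Results.MP_443e5f_co.AlmostDiameterFive

open Finset Filter Pool.Agent.Goldbach Pool.Agent.Lib.GoldbachGraph Pool.Agent.Lib.H18GB

/-- the upper bound, for a Goldbach type graph -/
theorem main (ε : ℝ) (hε : 0 < ε) : ∃ n0 : ℕ, ∀ n ≥ n0, ∀ V S : Set ℕ,
    (∀ a ∈ V, Even a ∧ a ≤ 2 * n) → (∀ x ∈ Finset.Icc 1 n, 2 * x ∈ V) →
    (∀ m, m.Prime → Odd m → m < 2 * n → m ∈ S) →
    ∃ Γ : Set V, (1 - ε) * n ≤ (Γ.ncard : ℝ) ∧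
      ∀ a ∈ Γ, ∀ b ∈ Γ, (halfGraph V S).edist a b ≤ 5 := by
  obtain ⟨n1, h1⟩ := beta ε hε
  refine ⟨n1, fun n hn V S hV hV2 hS => ?_⟩
  obtain ⟨Γ, hΓ, hc, hd⟩ := h1 n hn
  have : Finite V := finite_of_le hV
  refine ⟨{a : V | (a : ℕ) / 2 ∈ Γ}, hc.trans ?_, ?_⟩
  · have h2 : Γ.card ≤ {a : V | (a : ℕ) / 2 ∈ Γ}.ncard := by
      rw [← Set.ncard_coe_finset]
      refine le_trans ?_ (Set.ncard_image_le (f := fun b : V => (b : ℕ) / 2) (Set.toFinite _))
      apply Set.ncard_le_ncard _ ((Set.toFinite _).image _)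
      intro x hx
      rw [Finset.mem_coe] at hx
      refine ⟨⟨2 * x, hV2 x (hΓ hx)⟩, ?_, by simp⟩
      rw [Set.mem_ofPred_eq]
      simp only [Nat.mul_div_cancel_left _ (by norm_num : 0 < 2)]
      exact hx
    exact_mod_cast h2
  · rintro ⟨a, ha⟩ ha' ⟨b, hb⟩ hb'
    rw [Set.mem_ofPred_eq] at ha' hb'
    simp only at ha' hb'
    obtain ⟨⟨x, hx⟩, han⟩ := hV a ha
    obtain ⟨⟨y, hy⟩, hbn⟩ := hV b hb
    have hax : a = 2 * x := by omega
    have hby : b = 2 * y := by omega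
    subst hax hby
    rw [Nat.mul_div_cancel_left _ (by norm_num : 0 < 2)] at ha' hb'
    exact edist_transfer hV2 hS (hΓ ha') (hΓ hb') (k := 5) (hd x ha' y hb')

/-- For every `ε > 0` and all large `n`, in the finite Goldbach graph `G_n` and in the near
Goldbach graph `G(n)`: some set of at least `(1 - ε) n` vertices is pairwise at distance at most
`5`, and every set of at least `(3/5 + ε) n` vertices contains two at distance at least `5`. -/
theorem result (ε : ℝ) (hε : 0 < ε) : ∃ N : ℕ, ∀ n ≥ N,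
    ((∃ Γ : Set (goldbachVertices n), (1 - ε) * n ≤ (Γ.ncard : ℝ) ∧
        ∀ a ∈ Γ, ∀ b ∈ Γ, (goldbachGraph n).edist a b ≤ 5) ∧
      ∀ Γ : Set (goldbachVertices n), (3 / 5 + ε) * n ≤ (Γ.ncard : ℝ) →
        ∃ a ∈ Γ, ∃ b ∈ Γ, 5 ≤ (goldbachGraph n).edist a b) ∧
    ((∃ Γ : Set (evenVertices n), (1 - ε) * n ≤ (Γ.ncard : ℝ) ∧
        ∀ a ∈ Γ, ∀ b ∈ Γ, (nearGoldbachGraph n).edist a b ≤ 5) ∧
      ∀ Γ : Set (evenVertices n), (3 / 5 + ε) * n ≤ (Γ.ncard : ℝ) →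
        ∃ a ∈ Γ, ∃ b ∈ Γ, 5 ≤ (nearGoldbachGraph n).edist a b) := by
  obtain ⟨n1, h1⟩ := main ε hε
  obtain ⟨n2, h2⟩ := sharp ε hε
  refine ⟨max n1 n2, fun n hn => ?_⟩
  have hn1 : n1 ≤ n := le_trans (le_max_left _ _) hn
  have hn2 : n2 ≤ n := le_trans (le_max_right _ _) hn
  refine ⟨⟨?_, ?_⟩, ⟨?_, ?_⟩⟩
  · exact h1 n hn1 (goldbachVertices n) {p | p.Prime ∧ Odd p ∧ p < 2 * n} (fun a ha => ha)
      (fun x hx => by
        rw [Finset.mem_Icc] at hx
        exact ⟨even_two_mul x, by omega⟩)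
      (fun m h1 h2 h3 => ⟨h1, h2, h3⟩)
  · exact h2 n hn2 (goldbachVertices n) {p | p.Prime ∧ Odd p ∧ p < 2 * n} (fun a ha => ha)
      (fun m hm => Or.inr ⟨hm.1, hm.2.1⟩)
  · exact h1 n hn1 (evenVertices n) ({1} ∪ {p | p.Prime ∧ Odd p ∧ p < 2 * n})
      (fun a ha => ⟨ha.1, ha.2.2⟩)
      (fun x hx => by
        rw [Finset.mem_Icc] at hx
        exact ⟨even_two_mul x, by omega, by omega⟩)
      (fun m h1 h2 h3 => Or.inr ⟨h1, h2, h3⟩)
  · exact h2 n hn2 (evenVertices n) ({1} ∪ {p | p.Prime ∧ Odd p ∧ p < 2 * n})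
      (fun a ha => ⟨ha.1, ha.2.2⟩)
      (fun m hm => by
        rcases hm with hm | hm
        · exact Or.inl hm
        · exact Or.inr ⟨hm.1, hm.2.1⟩)

end Pool.Agent.Results.MP_443e5f_co.AlmostDiameterFive
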