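import Pool.Agent.Lib.H18GB.Transfer
import Pool.Agent.Lib.H18GB.GR7
import Pool.Agent.Lib.H18GB2.Alpha

/-!
# Vertices of large degree in the Goldbach graphs are pairwise at distance at most `7`

There is a constant `c > 0` such that, for every `ε > 0` and all large `n`, in the finite Goldbach
graph `G_n` and in the finite near Goldbach graph `G(n)`:

* any two nonzero vertices `a, b` whose degrees are at least `ε` times the order of magnitude
  `∏_{p ∣ a, p > 2} (p - 1) / (p - 2) * n / (log n)^2` predicted by Hardy and Littlewood are at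
  distance at most `7`;
* all but at most `ε n` vertices have degree at least `c` times this order of magnitude.
-/

namespace Pool.Agent.Results.MP_443e5f_co.LargeDegreeSeven

open Finset Filter Pool.Agent.Goldbach Pool.Agent.Lib.GoldbachGraph Pool.Agent.Lib.H18GB

/-- The arithmetic factor `∏_{p ∣ a, p > 2} (p - 1) / (p - 2)` of Hardy and Littlewood. -/
noncomputable def hl (a : ℕ) : ℝ :=
  ∏ p ∈ a.primeFactors.filter (fun p => 2 < p), (((p : ℝ) - 1) / (p - 2))

theorem one_le_hl (a : ℕ) : 1 ≤ hl a := by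
  unfold hl
  calc (1 : ℝ) = ∏ p ∈ a.primeFactors.filter (fun p => 2 < p), 1 := by simp
    _ ≤ _ := by
      apply Finset.prod_le_prod (fun _ _ => zero_le_one)
      intro p hp
      have h : (2 : ℝ) < p := by exact_mod_cast (Finset.mem_filter.mp hp).2
      rw [le_div_iff₀ (by linarith)]
      linarith

theorem hl_two_mul {x : ℕ} (hx : x ≠ 0) : hl (2 * x) = SH x := by
  unfold hl SH
  refine Finset.prod_congr ?_ fun _ _ => rfl
  ext p
  simp only [Finset.mem_filter, Nat.mem_primeFactors]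
  constructor
  · rintro ⟨⟨h1, h2, -⟩, h3⟩
    refine ⟨⟨h1, ?_, hx⟩, h3⟩
    rcases h1.dvd_mul.mp h2 with h | h
    · exact absurd (Nat.le_of_dvd (by norm_num) h) (by omega)
    · exact h
  · rintro ⟨⟨h1, h2, -⟩, h3⟩
    exact ⟨⟨h1, h2.mul_left 2, by omega⟩, h3⟩

section

theorem eventually_small (ε : ℝ) (hε : 0 < ε) : ∃ n0 : ℕ, ∀ n : ℕ, n0 ≤ n →
    4 ≤ ε * n / Real.log n ^ 2 ∧ 1 ≤ ε * n ∧ 2 ≤ n := by
  have h1 : Tendsto (fun n : ℕ => Real.log n ^ 2 / (n : ℝ)) atTop (nhds 0) := by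
    have := (Real.isLittleO_pow_log_id_atTop (n := 2)).tendsto_div_nhds_zero
    exact this.comp tendsto_natCast_atTop_atTop
  have h2 := h1.eventually (gt_mem_nhds (show (0 : ℝ) < ε / 4 by positivity))
  have h3 : ∀ᶠ n : ℕ in atTop, 1 / ε ≤ (n : ℝ) := tendsto_natCast_atTop_atTop.eventually_ge_atTop _
  obtain ⟨n0, hn0⟩ := eventually_atTop.mp (h2.and (h3.and (eventually_ge_atTop 3)))
  refine ⟨n0, fun n hn => ?_⟩
  obtain ⟨h4, h5, h6⟩ := hn0 n hn
  have hn1 : (1 : ℝ) < n := by exact_mod_cast (by omega : 1 < n)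
  have hl : 0 < Real.log n := Real.log_pos hn1
  refine ⟨?_, ?_, by omega⟩
  · rw [le_div_iff₀ (by positivity)]
    rw [div_lt_iff₀ (by linarith)] at h4
    linarith
  · rw [div_le_iff₀ hε] at h5
    linarith

/-- the two main statements for a Goldbach type graph -/
theorem main : ∃ c : ℝ, 0 < c ∧ ∀ ε : ℝ, 0 < ε → ∃ n0 : ℕ, ∀ n ≥ n0, ∀ V S : Set ℕ,
    (∀ a ∈ V, Even a ∧ a ≤ 2 * n) → (∀ x ∈ Finset.Icc 1 n, 2 * x ∈ V) →
    (∀ m, m.Prime → Odd m → m < 2 * n → m ∈ S) → (∀ m ∈ S, m = 1 ∨ (m.Prime ∧ Odd m)) →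
    (∀ a b : V, (a : ℕ) ≠ 0 → (b : ℕ) ≠ 0 →
      ε * hl a * n / Real.log n ^ 2 ≤ ((halfGraph V S).neighborSet a).ncard →
      ε * hl b * n / Real.log n ^ 2 ≤ ((halfGraph V S).neighborSet b).ncard →
      (halfGraph V S).edist a b ≤ 7) ∧
    ({a : V | (((halfGraph V S).neighborSet a).ncard : ℝ) <
      c * hl a * n / Real.log n ^ 2}.ncard : ℝ) ≤ ε * n := by
  obtain ⟨c, hc, h7⟩ := gr7
  -- the first statement
  have part1 : ∀ ε : ℝ, 0 < ε → ∃ n0 : ℕ, ∀ n ≥ n0, ∀ V S : Set ℕ,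
    (∀ a ∈ V, Even a ∧ a ≤ 2 * n) → (∀ x ∈ Finset.Icc 1 n, 2 * x ∈ V) →
    (∀ m, m.Prime → Odd m → m < 2 * n → m ∈ S) → (∀ m ∈ S, m = 1 ∨ (m.Prime ∧ Odd m)) →
    (∀ a b : V, (a : ℕ) ≠ 0 → (b : ℕ) ≠ 0 →
      ε * hl a * n / Real.log n ^ 2 ≤ ((halfGraph V S).neighborSet a).ncard →
      ε * hl b * n / Real.log n ^ 2 ≤ ((halfGraph V S).neighborSet b).ncard →
      (halfGraph V S).edist a b ≤ 7) := by
    intro ε hε
    obtain ⟨n1, h6⟩ := gr6s (ε / 2) (by positivity)
    obtain ⟨n2, hs⟩ := eventually_small (ε / 2) (by positivity)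
    refine ⟨max n1 n2, fun n hn V S hV hV2 hS hS' => ?_⟩
    obtain ⟨hs1, hs2, hs3⟩ := hs n (le_trans (le_max_right _ _) hn)
    have hlog : 0 < Real.log n := Real.log_pos (by exact_mod_cast (by omega : 1 < n))
    -- passage to halved degrees
    have key : ∀ x : ℕ, ∀ hx : 2 * x ∈ V, x ≠ 0 →
        ε * hl (2 * x) * n / Real.log n ^ 2 ≤ ((halfGraph V S).neighborSet ⟨2 * x, hx⟩).ncard →
        ε / 2 * SH x * n / Real.log n ^ 2 ≤ hdeg n x := by
      intro x hx hx0 h
      have h1 : (((halfGraph V S).neighborSet ⟨2 * x, hx⟩).ncard : ℝ) ≤ hdeg n x + 4 := by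
        exact_mod_cast deg_le hV hS' x hx
      rw [hl_two_mul hx0] at h
      have h2 : 1 ≤ SH x := by
        rw [← hl_two_mul hx0]
        exact one_le_hl _
      have h3 : ε * SH x * n / Real.log n ^ 2 =
          ε / 2 * SH x * n / Real.log n ^ 2 + (ε / 2 * n / Real.log n ^ 2) * SH x := by ring
      have h4 : 4 ≤ (ε / 2 * n / Real.log n ^ 2) * SH x := by nlinarith
      linarith
    rintro ⟨a, ha⟩ ⟨b, hb⟩ ha0 hb0 hda hdb
    simp only at ha0 hb0 hda hdb
    obtain ⟨⟨x, hx⟩, han⟩ := hV a ha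
    obtain ⟨⟨y, hy⟩, hbn⟩ := hV b hb
    have hax : a = 2 * x := by omega
    have hby : b = 2 * y := by omega
    subst hax hby
    have hx1 : x ∈ Finset.Icc 1 n := Finset.mem_Icc.mpr ⟨by omega, by omega⟩
    have hy1 : y ∈ Finset.Icc 1 n := Finset.mem_Icc.mpr ⟨by omega, by omega⟩
    exact edist_transfer hV2 hS hx1 hy1 (k := 7) (h6 n (le_trans (le_max_left _ _) hn) x hx1 y hy1
      (key x ha (by omega) hda) (key y hb (by omega) hdb))
  -- the second statement
  have part2 : ∀ ε : ℝ, 0 < ε → ∃ n0 : ℕ, ∀ n ≥ n0, ∀ V S : Set ℕ,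
    (∀ a ∈ V, Even a ∧ a ≤ 2 * n) → (∀ x ∈ Finset.Icc 1 n, 2 * x ∈ V) →
    (∀ m, m.Prime → Odd m → m < 2 * n → m ∈ S) →
    ({a : V | (((halfGraph V S).neighborSet a).ncard : ℝ) <
      c * hl a * n / Real.log n ^ 2}.ncard : ℝ) + 1 ≤ ε * n := by
    intro ε hε
    obtain ⟨n1, h7⟩ := h7 (ε / 2) (by positivity)
    obtain ⟨n2, hs⟩ := eventually_small (ε / 4) (by positivity)
    refine ⟨max n1 n2, fun n hn V S hV hV2 hS => ?_⟩
    obtain ⟨hs1, hs2, hs3⟩ := hs n (le_trans (le_max_right _ _) hn)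
    have h8 := h7 n (le_trans (le_max_left _ _) hn)
    have : Finite V := finite_of_le hV
    set T : Finset ℕ := insert 0 ((Finset.Icc 1 n).filter
      fun X => (hdeg n X : ℝ) < c * SH X * n / Real.log n ^ 2) with hT
    have h9 : {a : V | (((halfGraph V S).neighborSet a).ncard : ℝ) <
        c * hl a * n / Real.log n ^ 2}.ncard ≤ T.card := by
      rw [← Set.ncard_coe_finset]
      apply Set.ncard_le_ncard_of_injOn (fun b : V => (b : ℕ) / 2)
      · rintro ⟨a, ha⟩ hda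
        obtain ⟨⟨x, hx⟩, han⟩ := hV a ha
        have hax : a = 2 * x := by omega
        subst hax
        simp only [Set.mem_ofPred_eq] at hda
        simp only [Nat.mul_div_cancel_left _ (by norm_num : 0 < 2)]
        rw [Finset.mem_coe, hT, Finset.mem_insert, Finset.mem_filter]
        by_cases hx0 : x = 0
        · exact Or.inl hx0
        right
        have hx1 : x ∈ Finset.Icc 1 n := Finset.mem_Icc.mpr ⟨by omega, by omega⟩
        refine ⟨hx1, ?_⟩
        rw [hl_two_mul hx0] at hda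
        have := le_deg hV hV2 hS x hx1 ha
        have : (hdeg n x : ℝ) ≤ ((halfGraph V S).neighborSet ⟨2 * x, ha⟩).ncard := by
          exact_mod_cast this
        linarith
      · rintro ⟨b, hb⟩ - ⟨b', hb'⟩ - hbb
        have h1 := (hV b hb).1
        have h2 := (hV b' hb').1
        simp only at hbb
        ext
        simp only
        obtain ⟨k, hk⟩ := h1
        obtain ⟨l, hl⟩ := h2
        omega
    have h10 : (T.card : ℝ) ≤ ε / 2 * n + 1 := by
      have h11 := Finset.card_insert_le 0 ((Finset.Icc 1 n).filter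
        fun X => (hdeg n X : ℝ) < c * SH X * n / Real.log n ^ 2)
      have h12 : (T.card : ℝ) ≤ ((Finset.Icc 1 n).filter
        fun X => (hdeg n X : ℝ) < c * SH X * n / Real.log n ^ 2).card + 1 := by
        exact_mod_cast h11
      linarith
    have h13 : ({a : V | (((halfGraph V S).neighborSet a).ncard : ℝ) <
        c * hl a * n / Real.log n ^ 2}.ncard : ℝ) ≤ T.card := by exact_mod_cast h9
    linarith
  refine ⟨c, hc, fun ε hε => ?_⟩
  obtain ⟨n1, p1⟩ := part1 ε hε
  obtain ⟨n2, p2⟩ := part2 ε hε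
  refine ⟨max n1 n2, fun n hn V S hV hV2 hS hS' => ?_⟩
  simp only [ge_iff_le, max_le_iff] at hn
  obtain ⟨hn1, hn2⟩ := hn
  have q2 := p2 n hn2 V S hV hV2 hS
  exact ⟨p1 n hn1 V S hV hV2 hS hS', by linarith⟩

end

/-- **Vertices of large degree are pairwise at distance at most `7`, and almost all vertices have
large degree**, in the finite Goldbach graphs and in the finite near Goldbach graphs. -/
theorem result : ∃ c : ℝ, 0 < c ∧ ∀ ε : ℝ, 0 < ε → ∃ n0 : ℕ, ∀ n ≥ n0,
    ((∀ a b : goldbachVertices n, (a : ℕ) ≠ 0 → (b : ℕ) ≠ 0 →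
        ε * hl a * n / Real.log n ^ 2 ≤ ((goldbachGraph n).neighborSet a).ncard →
        ε * hl b * n / Real.log n ^ 2 ≤ ((goldbachGraph n).neighborSet b).ncard →
        (goldbachGraph n).edist a b ≤ 7) ∧
      ({a : goldbachVertices n | (((goldbachGraph n).neighborSet a).ncard : ℝ) <
        c * hl a * n / Real.log n ^ 2}.ncard : ℝ) ≤ ε * n) ∧
    ((∀ a b : evenVertices n,
        ε * hl a * n / Real.log n ^ 2 ≤ ((nearGoldbachGraph n).neighborSet a).ncard →
        ε * hl b * n / Real.log n ^ 2 ≤ ((nearGoldbachGraph n).neighborSet b).ncard →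
        (nearGoldbachGraph n).edist a b ≤ 7) ∧
      ({a : evenVertices n | (((nearGoldbachGraph n).neighborSet a).ncard : ℝ) <
        c * hl a * n / Real.log n ^ 2}.ncard : ℝ) ≤ ε * n) := by
  obtain ⟨c, hc, h⟩ := main
  refine ⟨c, hc, fun ε hε => ?_⟩
  obtain ⟨n0, h⟩ := h ε hε
  refine ⟨n0, fun n hn => ⟨?_, ?_⟩⟩
  · apply h n hn (goldbachVertices n) {p | p.Prime ∧ Odd p ∧ p < 2 * n}
    · intro a ha
      exact ha
    · intro x hx
      rw [Finset.mem_Icc] at hx
      exact ⟨even_two_mul x, by omega⟩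
    · intro m h1 h2 h3
      exact ⟨h1, h2, h3⟩
    · intro m hm
      exact Or.inr ⟨hm.1, hm.2.1⟩
  · have h' := h n hn (evenVertices n) ({1} ∪ {p | p.Prime ∧ Odd p ∧ p < 2 * n})
      (fun a ha => ⟨ha.1, ha.2.2⟩)
      (fun x hx => by
        rw [Finset.mem_Icc] at hx
        exact ⟨even_two_mul x, by omega, by omega⟩)
      (fun m h1 h2 h3 => Or.inr ⟨h1, h2, h3⟩)
      (fun m hm => by
        rcases hm with hm | hm
        · exact Or.inl hm
        · exact Or.inr ⟨hm.1, hm.2.1⟩)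
    refine ⟨fun a b => h'.1 a b ?_ ?_, h'.2⟩
    · have := a.2.2.1
      omega
    · have := b.2.2.1
      omega

end Pool.Agent.Results.MP_443e5f_co.LargeDegreeSeven
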